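import Pool.Agent.H31.DP.Targets

/-!
Row PV of the board DP: Parseval.
-/

set_option autoImplicit false

namespace Pool.Agent.H86.DP

open Finset
open Pool.Agent.H31.DP

theorem ee_add (a b : ℝ) : ee (a + b) = ee a * ee b := by
  unfold ee
  rw [← Complex.exp_add]
  congr 1
  push_cast
  ring

theorem ee_int (k : ℤ) : ee (k : ℝ) = 1 := by
  unfold ee
  rw [Complex.exp_eq_one_iff]
  exact ⟨k, by push_cast; ring⟩

theorem ee_nat_mul (n : ℕ) (a : ℝ) : ee (n * a) = ee a ^ n := by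
  unfold ee
  rw [← Complex.exp_nat_mul]
  congr 1
  push_cast
  ring

theorem ee_conj (a : ℝ) : (starRingEnd ℂ) (ee a) = ee (-a) := by
  unfold ee
  rw [← Complex.exp_conj]
  congr 1
  simp only [map_mul, Complex.conj_ofReal, Complex.conj_I, map_ofNat]
  push_cast
  ring

/-- Orthogonality. -/
theorem orth (m : ℕ) (hm : 0 < m) (k : ℤ) (hk : |k| < m) :
    ∑ ξ ∈ range m, ee ((k : ℝ) * ((ξ : ℝ) / m)) = if k = 0 then (m : ℂ) else 0 := by
  have hm0 : (m : ℝ) ≠ 0 := by positivity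
  split_ifs with h
  · subst h
    have : ∀ ξ ∈ range m, ee (((0 : ℤ) : ℝ) * ((ξ : ℝ) / m)) = 1 := by
      intro ξ _
      have : ((0 : ℤ) : ℝ) * ((ξ : ℝ) / m) = ((0 : ℤ) : ℝ) := by simp
      rw [this]
      exact ee_int 0
    rw [Finset.sum_congr rfl this]
    simp
  · have h1 : ∀ ξ ∈ range m, ee ((k : ℝ) * ((ξ : ℝ) / m)) = ee ((k : ℝ) / m) ^ ξ := by
      intro ξ _
      rw [← ee_nat_mul]
      congr 1
      ring
    rw [Finset.sum_congr rfl h1]
    have hne : ee ((k : ℝ) / m) ≠ 1 := by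
      intro h2
      unfold ee at h2
      rw [Complex.exp_eq_one_iff] at h2
      obtain ⟨n, hn⟩ := h2
      have hpi : (2 * Real.pi * Complex.I : ℂ) ≠ 0 := by
        have := Complex.two_pi_I_ne_zero
        exact this
      have h3 : (((k : ℝ) / m : ℝ) : ℂ) = (n : ℂ) := by
        have : (2 * Real.pi * Complex.I : ℂ) * (((k : ℝ) / m : ℝ) : ℂ) =
            (2 * Real.pi * Complex.I : ℂ) * (n : ℂ) := by
          rw [hn]; ring
        exact mul_left_cancel₀ hpi this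
      have h4 : (k : ℝ) / m = (n : ℝ) := by
        have : (((k : ℝ) / m : ℝ) : ℂ) = (((n : ℝ)) : ℂ) := by rw [h3]; simp
        exact_mod_cast this
      have h5 : (k : ℝ) = n * m := by
        field_simp at h4
        linarith
      have h6 : k = n * m := by exact_mod_cast h5
      have h7 : n ≠ 0 := by
        intro h8
        rw [h8] at h6
        simp at h6
        exact h h6
      have h9 : (m : ℤ) ≤ |k| := by
        rw [h6, abs_mul]
        have : (1 : ℤ) ≤ |n| := Int.one_le_abs h7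
        have hmm : |(m : ℤ)| = m := abs_of_nonneg (by positivity)
        rw [hmm]
        nlinarith
      omega
    rw [geom_sum_eq hne]
    have h10 : ee ((k : ℝ) / m) ^ m = 1 := by
      rw [← ee_nat_mul]
      have : (m : ℝ) * ((k : ℝ) / m) = (k : ℝ) := by field_simp
      rw [this]
      exact ee_int k
    rw [h10]
    simp

/-- Parseval for a finite set of frequencies of diameter less than `m`. -/
theorem parseval (m : ℕ) (hm : 0 < m) (S : Finset ℤ) (c : ℤ → ℂ)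
    (hS : ∀ s ∈ S, ∀ t ∈ S, |s - t| < m) :
    ∑ ξ ∈ range m, ‖∑ s ∈ S, c s * ee ((s : ℝ) * ((ξ : ℝ) / m))‖ ^ 2 =
      m * ∑ s ∈ S, ‖c s‖ ^ 2 := by
  have key : ((∑ ξ ∈ range m, ‖∑ s ∈ S, c s * ee ((s : ℝ) * ((ξ : ℝ) / m))‖ ^ 2 : ℝ) : ℂ) =
      ((m * ∑ s ∈ S, ‖c s‖ ^ 2 : ℝ) : ℂ) := by
    push_cast
    have h1 : ∀ ξ ∈ range m, ((‖∑ s ∈ S, c s * ee ((s : ℝ) * ((ξ : ℝ) / m))‖ : ℂ)) ^ 2 =
        ∑ s ∈ S, ∑ t ∈ S, c s * (starRingEnd ℂ) (c t) *
          ee (((s - t : ℤ) : ℝ) * ((ξ : ℝ) / m)) := by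
      intro ξ _
      rw [← Complex.mul_conj', map_sum, Finset.sum_mul_sum]
      refine Finset.sum_congr rfl (fun s _ => Finset.sum_congr rfl (fun t _ => ?_))
      rw [map_mul, ee_conj]
      have : ee (((s - t : ℤ) : ℝ) * ((ξ : ℝ) / m)) =
          ee ((s : ℝ) * ((ξ : ℝ) / m)) * ee (-((t : ℝ) * ((ξ : ℝ) / m))) := by
        rw [← ee_add]
        congr 1
        push_cast
        ring
      rw [this]
      ring
    rw [Finset.sum_congr rfl h1, Finset.sum_comm, Finset.mul_sum]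
    refine Finset.sum_congr rfl (fun s hs => ?_)
    rw [Finset.sum_comm]
    have h2 : ∀ t ∈ S, ∑ ξ ∈ range m, c s * (starRingEnd ℂ) (c t) *
          ee (((s - t : ℤ) : ℝ) * ((ξ : ℝ) / m)) =
        if t = s then c s * (starRingEnd ℂ) (c s) * (m : ℂ) else 0 := by
      intro t ht
      rw [← Finset.mul_sum, orth m hm (s - t) (hS s hs t ht)]
      by_cases h : t = s
      · subst h
        simp
      · have h' : ¬ (s - t = 0) := fun h'' => h (by omega)
        rw [if_neg h', if_neg h]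
        simp
    rw [Finset.sum_congr rfl h2, Finset.sum_ite_eq' S s, if_pos hs, Complex.mul_conj']
    ring
  exact_mod_cast key

/-- [PV] -/
theorem pf_PV : StatementPV := by
  intro F u N E hF hu
  rcases Nat.eq_zero_or_pos N with hN | hN
  · subst hN
    simp
  have hE : 0 ≤ E := le_trans (norm_nonneg _) (hu 0)
  set m : ℕ := 4 * N + 1 with hmdef
  have hm : 0 < m := by omega
  have hmR : (0 : ℝ) < m := by exact_mod_cast hm
  -- the frequencies
  set T : Finset ℤ := Finset.Icc (-(N : ℤ)) (2 * N) with hT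
  set c : ℤ → ℂ := fun t => ∑ n ∈ Finset.Icc 1 N, F n *
    (if 1 ≤ (n : ℤ) + t ∧ (n : ℤ) + t ≤ 2 * N then u ((n : ℤ) + t).toNat else 0) with hc
  have hprod : ∀ ξ : ℕ, (∑ k ∈ Finset.Icc 1 (2 * N), u k * ee ((k : ℝ) * ((ξ : ℝ) / m))) *
      (∑ n ∈ Finset.Icc 1 N, F n * ee (-((n : ℝ) * ((ξ : ℝ) / m)))) =
      ∑ t ∈ T, c t * ee ((t : ℝ) * ((ξ : ℝ) / m)) := by
    intro ξ
    have hR : ∑ t ∈ T, c t * ee ((t : ℝ) * ((ξ : ℝ) / m)) =
        ∑ n ∈ Finset.Icc 1 N, ∑ t ∈ T, F n *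
          (if 1 ≤ (n : ℤ) + t ∧ (n : ℤ) + t ≤ 2 * N then u ((n : ℤ) + t).toNat else 0) *
            ee ((t : ℝ) * ((ξ : ℝ) / m)) := by
      rw [Finset.sum_comm]
      refine Finset.sum_congr rfl (fun t _ => ?_)
      rw [hc]
      simp only
      rw [Finset.sum_mul]
    rw [hR, mul_comm, Finset.sum_mul]
    refine Finset.sum_congr rfl (fun n hn => ?_)
    rw [Finset.mem_Icc] at hn
    rw [Finset.mul_sum]
    -- sum over k = n + t
    have hL : ∑ t ∈ T, F n *
          (if 1 ≤ (n : ℤ) + t ∧ (n : ℤ) + t ≤ 2 * N then u ((n : ℤ) + t).toNat else 0) *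
            ee ((t : ℝ) * ((ξ : ℝ) / m)) =
        ∑ t ∈ T.filter (fun t => 1 ≤ (n : ℤ) + t ∧ (n : ℤ) + t ≤ 2 * N), F n *
          u ((n : ℤ) + t).toNat * ee ((t : ℝ) * ((ξ : ℝ) / m)) := by
      rw [Finset.sum_filter]
      refine Finset.sum_congr rfl (fun t _ => ?_)
      split_ifs <;> simp
    rw [hL]
    refine Finset.sum_nbij' (fun k : ℕ => (k : ℤ) - n) (fun t : ℤ => ((n : ℤ) + t).toNat)
      ?_ ?_ ?_ ?_ ?_
    · intro k hk
      rw [Finset.mem_Icc] at hk
      simp only [hT, Finset.mem_filter, Finset.mem_Icc]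
      omega
    · intro t ht
      simp only [hT, Finset.mem_filter, Finset.mem_Icc] at ht
      rw [Finset.mem_Icc]
      omega
    · intro k hk
      simp
    · intro t ht
      simp only [hT, Finset.mem_filter, Finset.mem_Icc] at ht
      omega
    · intro k hk
      have h1 : ((n : ℤ) + ((k : ℤ) - n)).toNat = k := by
        have : (n : ℤ) + ((k : ℤ) - n) = (k : ℤ) := by ring
        rw [this]
        exact Int.toNat_natCast k
      rw [h1]
      have h2 : ee ((((k : ℤ) - n : ℤ) : ℝ) * ((ξ : ℝ) / m)) =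
          ee ((k : ℝ) * ((ξ : ℝ) / m)) * ee (-((n : ℝ) * ((ξ : ℝ) / m))) := by
        rw [← ee_add]
        congr 1
        push_cast
        ring
      rw [h2]
      ring
  -- Parseval for the product
  have hP1 := parseval m hm T c (by
    intro s hs t ht
    simp only [hT, Finset.mem_Icc] at hs ht
    rw [abs_lt]
    constructor <;> omega)
  -- Parseval for F
  have hP2 : ∑ ξ ∈ range m, ‖∑ n ∈ Finset.Icc 1 N, F n * ee (-((n : ℝ) * ((ξ : ℝ) / m)))‖ ^ 2 =
      m * ∑ n ∈ Finset.Icc 1 N, ‖F n‖ ^ 2 := by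
    have h := parseval m hm (Finset.Icc (-(N : ℤ)) (-1)) (fun s => F (-s).toNat) (by
      intro s hs t ht
      rw [Finset.mem_Icc] at hs ht
      rw [abs_lt]
      constructor <;> omega)
    have e1 : ∀ ξ : ℕ, ∑ s ∈ Finset.Icc (-(N : ℤ)) (-1), F (-s).toNat *
        ee ((s : ℝ) * ((ξ : ℝ) / m)) =
        ∑ n ∈ Finset.Icc 1 N, F n * ee (-((n : ℝ) * ((ξ : ℝ) / m))) := by
      intro ξ
      symm
      refine Finset.sum_nbij' (fun n : ℕ => -(n : ℤ)) (fun s : ℤ => (-s).toNat) ?_ ?_ ?_ ?_ ?_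
      · intro n hn
        rw [Finset.mem_Icc] at hn ⊢
        omega
      · intro s hs
        rw [Finset.mem_Icc] at hs ⊢
        omega
      · intro n hn
        simp
      · intro s hs
        rw [Finset.mem_Icc] at hs
        omega
      · intro n hn
        have : (- -(n : ℤ)).toNat = n := by simp
        rw [this]
        congr 1
        congr 1
        push_cast
        ring
    have e2 : ∑ s ∈ Finset.Icc (-(N : ℤ)) (-1), ‖F (-s).toNat‖ ^ 2 =
        ∑ n ∈ Finset.Icc 1 N, ‖F n‖ ^ 2 := by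
      symm
      refine Finset.sum_nbij' (fun n : ℕ => -(n : ℤ)) (fun s : ℤ => (-s).toNat) ?_ ?_ ?_ ?_ ?_
      · intro n hn
        rw [Finset.mem_Icc] at hn ⊢
        omega
      · intro s hs
        rw [Finset.mem_Icc] at hs ⊢
        omega
      · intro n hn
        simp
      · intro s hs
        rw [Finset.mem_Icc] at hs
        omega
      · intro n hn
        have : (- -(n : ℤ)).toNat = n := by simp
        rw [this]
    rw [← e2, ← h]
    refine Finset.sum_congr rfl (fun ξ _ => ?_)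
    rw [e1 ξ]
  have hFN : ∑ n ∈ Finset.Icc 1 N, ‖F n‖ ^ 2 ≤ N := by
    calc ∑ n ∈ Finset.Icc 1 N, ‖F n‖ ^ 2 ≤ ∑ n ∈ Finset.Icc 1 N, (1 : ℝ) := by
          refine Finset.sum_le_sum (fun n _ => ?_)
          have h0 := norm_nonneg (F n)
          have h1 := hF n
          nlinarith
      _ = N := by simp
  have hbound : (m : ℝ) * ∑ t ∈ T, ‖c t‖ ^ 2 ≤ m * (E ^ 2 * N) := by
    rw [← hP1]
    calc ∑ ξ ∈ range m, ‖∑ s ∈ T, c s * ee ((s : ℝ) * ((ξ : ℝ) / m))‖ ^ 2
        ≤ ∑ ξ ∈ range m, E ^ 2 *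
            ‖∑ n ∈ Finset.Icc 1 N, F n * ee (-((n : ℝ) * ((ξ : ℝ) / m)))‖ ^ 2 := by
          refine Finset.sum_le_sum (fun ξ _ => ?_)
          rw [← hprod ξ, norm_mul, mul_pow]
          have h1 := hu ((ξ : ℝ) / m)
          have h2 := norm_nonneg (∑ k ∈ Finset.Icc 1 (2 * N), u k * ee ((k : ℝ) * ((ξ : ℝ) / m)))
          have h3 : ‖∑ k ∈ Finset.Icc 1 (2 * N), u k * ee ((k : ℝ) * ((ξ : ℝ) / m))‖ ^ 2 ≤
              E ^ 2 := by
            exact pow_le_pow_left₀ h2 h1 2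
          exact mul_le_mul_of_nonneg_right h3 (by positivity)
      _ = E ^ 2 * (m * ∑ n ∈ Finset.Icc 1 N, ‖F n‖ ^ 2) := by
          rw [← Finset.mul_sum, hP2]
      _ ≤ m * (E ^ 2 * N) := by
          have : E ^ 2 * (m * ∑ n ∈ Finset.Icc 1 N, ‖F n‖ ^ 2) =
              m * (E ^ 2 * ∑ n ∈ Finset.Icc 1 N, ‖F n‖ ^ 2) := by ring
          rw [this]
          exact mul_le_mul_of_nonneg_left
            (mul_le_mul_of_nonneg_left hFN (by positivity)) hmR.le
  have hbound2 : ∑ t ∈ T, ‖c t‖ ^ 2 ≤ E ^ 2 * N := le_of_mul_le_mul_left hbound hmR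
  -- the terms t in [1, N]
  have hcc : ∀ t ∈ Finset.Icc 1 N, ∑ n ∈ Finset.Icc 1 N, F n * u (n + t) = c (t : ℤ) := by
    intro t ht
    rw [Finset.mem_Icc] at ht
    rw [hc]
    refine Finset.sum_congr rfl (fun n hn => ?_)
    rw [Finset.mem_Icc] at hn
    have h1 : 1 ≤ (n : ℤ) + (t : ℤ) ∧ (n : ℤ) + (t : ℤ) ≤ 2 * N := by omega
    rw [if_pos h1]
    congr 2
  calc ∑ t ∈ Finset.Icc 1 N, ‖∑ n ∈ Finset.Icc 1 N, F n * u (n + t)‖ ^ 2
      = ∑ t ∈ Finset.Icc 1 N, ‖c (t : ℤ)‖ ^ 2 := by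
        refine Finset.sum_congr rfl (fun t ht => ?_)
        rw [hcc t ht]
    _ = ∑ s ∈ (Finset.Icc 1 N).image (fun t : ℕ => (t : ℤ)), ‖c s‖ ^ 2 := by
        rw [Finset.sum_image]
        intro a _ b _ hab
        have hab' : (a : ℤ) = (b : ℤ) := hab
        exact_mod_cast hab'
    _ ≤ ∑ s ∈ T, ‖c s‖ ^ 2 := by
        refine Finset.sum_le_sum_of_subset_of_nonneg ?_ (fun s _ _ => by positivity)
        intro s hs
        rw [Finset.mem_image] at hs
        obtain ⟨t, ht, rfl⟩ := hs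
        rw [Finset.mem_Icc] at ht
        simp only [hT, Finset.mem_Icc]
        omega
    _ ≤ N * E ^ 2 := by linarith

end Pool.Agent.H86.DP
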