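import Pool.Agent.H31.DP.Targets

/-!
Row S2 of the board DP: minor and major arcs together.
-/

set_option autoImplicit false

namespace Pool.Agent.H86.DP

open Finset
open Pool.Agent.H31.DP

theorem pf_S2 (hTM : StatementTM) (hMJ : StatementMJ) : StatementS2 := by
  intro r β δ ε ρ hP hε hρ
  obtain ⟨K₁, hK₁⟩ := hTM r β δ ε (ρ / 2) hP.1 hε (by positivity)
  obtain ⟨K₂, hK₂⟩ := hMJ r β δ K₁ ε (ρ / 2) hP hε (by positivity)
  refine ⟨max K₁ K₂, fun x y hx hxy => ?_⟩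
  have h1 := hK₁ x y hx (le_trans (Nat.mul_le_mul_right x (le_max_left K₁ K₂)) hxy)
  have h2 := hK₂ x y hx (le_trans (Nat.mul_le_mul_right x (le_max_right K₁ K₂)) hxy)
  classical
  have hsub : (Finset.Icc x y).filter (fun N : ℕ => ∃ θ : ℝ, ε * N < ‖Sm β δ N θ‖) ⊆
      (Finset.Icc x y).filter (fun N : ℕ => ∃ θ : ℝ, Minor K₁ N θ ∧ ε * N < ‖Sm β δ N θ‖) ∪
      (Finset.Icc x y).filter
        (fun N : ℕ => ∃ θ : ℝ, ¬ Minor K₁ N θ ∧ ε * N < ‖Sm β δ N θ‖) := by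
    intro N hN
    rw [Finset.mem_filter] at hN
    obtain ⟨hN, θ, hθ⟩ := hN
    rw [Finset.mem_union, Finset.mem_filter, Finset.mem_filter]
    by_cases hm : Minor K₁ N θ
    · exact Or.inl ⟨hN, θ, hm, hθ⟩
    · exact Or.inr ⟨hN, θ, hm, hθ⟩
  have hnn : ∀ N : ℕ, 0 ≤ (1 / (N : ℝ)) := fun N => by positivity
  calc ∑ N ∈ (Finset.Icc x y).filter (fun N : ℕ => ∃ θ : ℝ, ε * N < ‖Sm β δ N θ‖), (1 / (N : ℝ))
      ≤ ∑ N ∈ (Finset.Icc x y).filter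
          (fun N : ℕ => ∃ θ : ℝ, Minor K₁ N θ ∧ ε * N < ‖Sm β δ N θ‖) ∪
          (Finset.Icc x y).filter
          (fun N : ℕ => ∃ θ : ℝ, ¬ Minor K₁ N θ ∧ ε * N < ‖Sm β δ N θ‖), (1 / (N : ℝ)) :=
        Finset.sum_le_sum_of_subset_of_nonneg hsub (fun N _ _ => hnn N)
    _ ≤ ∑ N ∈ (Finset.Icc x y).filter
          (fun N : ℕ => ∃ θ : ℝ, Minor K₁ N θ ∧ ε * N < ‖Sm β δ N θ‖), (1 / (N : ℝ)) +
        ∑ N ∈ (Finset.Icc x y).filter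
          (fun N : ℕ => ∃ θ : ℝ, ¬ Minor K₁ N θ ∧ ε * N < ‖Sm β δ N θ‖), (1 / (N : ℝ)) := by
        rw [← Finset.sum_union_inter]
        have : 0 ≤ ∑ N ∈ (Finset.Icc x y).filter
          (fun N : ℕ => ∃ θ : ℝ, Minor K₁ N θ ∧ ε * N < ‖Sm β δ N θ‖) ∩
          (Finset.Icc x y).filter
          (fun N : ℕ => ∃ θ : ℝ, ¬ Minor K₁ N θ ∧ ε * N < ‖Sm β δ N θ‖), (1 / (N : ℝ)) :=
          Finset.sum_nonneg (fun N _ => hnn N)
        linarith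
    _ ≤ ρ * Real.log ((y : ℝ) / x) := by linarith

end Pool.Agent.H86.DP
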